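import Mathlib
import Pool.Agent.H38.LR.S8.H373R2.T7.Cnt
import Pool.Agent.H38.LR.S8.H20R2.EN.FLem

/-! The fundamental lemma for one class modulo each prime of a set (after `sys_fund` of `H373R2.T7.Fund`). -/

set_option autoImplicit false

namespace Pool.Agent.W41

open Finset

/-- the exponent of the double power -/
def JJ (y : ℕ) : ℕ := Nat.log 2 (Nat.log 2 y) + 1

lemma JJ_lt (y : ℕ) : y < 2 ^ 2 ^ JJ y := by
  have h1 : y < 2 ^ (Nat.log 2 y + 1) := Nat.lt_pow_succ_log_self (by norm_num) y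
  have h2 : Nat.log 2 y + 1 ≤ 2 ^ JJ y := Nat.lt_pow_succ_log_self (by norm_num) _
  exact h1.trans_le (Nat.pow_le_pow_right (by norm_num) h2)

lemma JJ_pow (y : ℕ) (hy : 2 ≤ y) : 2 ^ JJ y ≤ 2 * Nat.log 2 y := by
  have h0 : Nat.log 2 y ≠ 0 := by
    have : 0 < Nat.log 2 y := Nat.log_pos (by norm_num) hy
    omega
  unfold JJ
  rw [pow_succ]
  have := Nat.pow_log_le_self 2 h0
  omega

lemma JJ_le (y : ℕ) (hy : 2 ≤ y) : 2 ^ 2 ^ JJ y ≤ y ^ 2 := by
  calc 2 ^ 2 ^ JJ y ≤ 2 ^ (2 * Nat.log 2 y) := Nat.pow_le_pow_right (by norm_num) (JJ_pow y hy)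
    _ = (2 ^ Nat.log 2 y) ^ 2 := by rw [← pow_mul, mul_comm]
    _ ≤ y ^ 2 := Nat.pow_le_pow_left (Nat.pow_log_le_self 2 (by omega)) 2

lemma JJ_small (y : ℕ) (hy : 3 ≤ y) : JJ y + 2 ≤ 2 * y := by
  unfold JJ
  have h1 : Nat.log 2 (Nat.log 2 y) ≤ Nat.log 2 y := Nat.log_le_self 2 _
  have h2 : Nat.log 2 y < y := Nat.log_lt_self 2 (by omega)
  omega

/-- `∏ (1 - 1/p)` over a set of primes -/
noncomputable def V (P : Finset ℕ) : ℝ := ∏ p ∈ P, (1 - 1 / (p : ℝ))

lemma fac_pos {p : ℕ} (hp : p.Prime) : 0 < 1 - 1 / (p : ℝ) := by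
  have h2 : (2 : ℝ) ≤ p := by exact_mod_cast hp.two_le
  have : 1 / (p : ℝ) ≤ 1 / 2 := one_div_le_one_div_of_le (by norm_num) h2
  linarith

lemma fac_le_one {p : ℕ} : 1 - 1 / (p : ℝ) ≤ 1 := by
  have : 0 ≤ 1 / (p : ℝ) := by positivity
  linarith

lemma V_pos {P : Finset ℕ} (hP : ∀ p ∈ P, p.Prime) : 0 < V P := prod_pos fun p hp => fac_pos (hP p hp)

lemma V_le_one {P : Finset ℕ} (hP : ∀ p ∈ P, p.Prime) : V P ≤ 1 :=
  prod_le_one (fun p hp => (fac_pos (hP p hp)).le) fun _ _ => fac_le_one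

/-- `V ≥ 1 / y` for primes up to `y` -/
lemma V_ge {P : Finset ℕ} (hP : ∀ p ∈ P, p.Prime) {y : ℕ} (hy : 1 ≤ y) (hPy : ∀ p ∈ P, p ≤ y) :
    1 / (y : ℝ) ≤ V P := by
  have h0 : ∀ m : ℕ, 1 ≤ m → ∏ n ∈ Icc 2 m, (1 - 1 / (n : ℝ)) = 1 / (m : ℝ) := by
    intro m hm
    induction m, hm using Nat.le_induction with
    | base => simp
    | succ m hm ih =>
      have hm0 : (m : ℝ) ≠ 0 := by exact_mod_cast (by omega : m ≠ 0)
      rw [prod_Icc_succ_top (by omega), ih]
      push_cast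
      have hm1 : (m : ℝ) + 1 ≠ 0 := by positivity
      field_simp
      ring
  have h1 := h0 y hy
  rw [← h1]
  unfold V
  have hsub : P ⊆ Icc 2 y := fun p hp => mem_Icc.2 ⟨(hP p hp).two_le, hPy p hp⟩
  rw [← prod_sdiff hsub]
  have h2 : ∏ n ∈ Icc 2 y \ P, (1 - 1 / (n : ℝ)) ≤ 1 := by
    apply prod_le_one
    · intro n hn
      have hn2 : 2 ≤ n := (mem_Icc.1 (mem_sdiff.1 hn).1).1
      have h2 : (2 : ℝ) ≤ n := by exact_mod_cast hn2
      have : 1 / (n : ℝ) ≤ 1 / 2 := one_div_le_one_div_of_le (by norm_num) h2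
      linarith
    · intro _ _; exact fac_le_one
  have h3 : 0 ≤ ∏ p ∈ P, (1 - 1 / (p : ℝ)) := prod_nonneg fun p hp => (fac_pos (hP p hp)).le
  nlinarith

open Classical in
/-- FUNDAMENTAL LEMMA for the integers `t ≤ X` with `t % p ≠ ρ p` for all `p ∈ P`. -/
theorem fund {ε : ℝ} (hε : 0 < ε) : ∃ K y0 : ℕ, 1 ≤ K ∧ 2 ≤ y0 ∧ ∀ y : ℕ, y0 ≤ y → ∀ X : ℕ, y ^ K ≤ X →
    ∀ P : Finset ℕ, (∀ p ∈ P, p.Prime ∧ p ≤ y) → ∀ ρ : ℕ → ℕ, (∀ p ∈ P, ρ p < p) →
    |((((Icc 1 X).filter (fun n : ℕ => ∀ p ∈ P, n % p ≠ ρ p)).card : ℕ) : ℝ) - X * V P| ≤ ε * (X * V P) := by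
  obtain ⟨C0, hC0, hFL⟩ := Pool.Agent.H20R2.fLem 1
  obtain ⟨b1, hb1⟩ := exists_pow_lt_of_lt_one (half_pos hε) (show (1 / 2 : ℝ) < 1 by norm_num)
  set b := max C0 b1 with hb
  have hbC : C0 ≤ b := le_max_left _ _
  have hb1' : 1 ≤ b := hC0.trans hbC
  have hbε : (1 / 2 : ℝ) ^ b ≤ ε / 2 := (pow_le_pow_of_le_one (by norm_num) (by norm_num) (le_max_right _ _)).trans hb1.le
  set z0 := C0 + 1 with hz0
  set K0 : ℕ := ∏ p ∈ (Icc 1 z0).filter Nat.Prime, p with hK0
  have hK01 : 1 ≤ K0 := Nat.pos_of_ne_zero (prod_ne_zero_iff.2 fun p hp => (mem_filter.1 hp).2.ne_zero)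
  have hCb : 1 ≤ C0 * b := Nat.mul_pos hC0 hb1'
  obtain ⟨e0, he0⟩ := exists_nat_gt (2 / ε)
  refine ⟨4 * (C0 * b) + 5, max (max (2 * K0) (z0 + 3)) (e0 + 2), by omega, by omega, fun y hy X hX P hP ρ hρ => ?_⟩
  have hyK : 2 * K0 ≤ y := le_trans (le_trans (le_max_left _ _) (le_max_left _ _)) hy
  have hyz : z0 + 3 ≤ y := le_trans (le_trans (le_max_right _ _) (le_max_left _ _)) hy
  have hye : e0 + 2 ≤ y := le_trans (le_max_right _ _) hy
  have hPp : ∀ p ∈ P, p.Prime := fun p hp => (hP p hp).1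
  set J := JJ y with hJ
  set Y : ℕ := 2 ^ 2 ^ J with hY
  have hyY : y < Y := JJ_lt y
  have hYy : Y ≤ y ^ 2 := JJ_le y (by omega)
  set D : ℕ := Y ^ (C0 * b) with hD
  set P0 : Finset ℕ := P.filter (fun p => p ≤ z0) with hP0
  set P1 : Finset ℕ := P.filter (fun p => ¬ p ≤ z0) with hP1
  have hPu : P = P0 ∪ P1 := (filter_union_filter_not_eq _ _).symm
  have hdisj : Disjoint P0 P1 := disjoint_filter_filter_not _ _ _
  have hPp1 : ∀ p ∈ P1, p.Prime ∧ z0 < p ∧ p ≤ Y := by
    intro p hp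
    rw [hP1, mem_filter] at hp
    exact ⟨hPp p hp.1, by omega, (((hP p hp.1).2).trans hyY.le)⟩
  have hPp0 : ∀ p ∈ P0, p.Prime ∧ p ≤ z0 := by
    intro p hp
    rw [hP0, mem_filter] at hp
    exact ⟨hPp p hp.1, hp.2⟩
  have hV : V P = V P0 * V P1 := by
    unfold V
    conv_lhs => rw [hPu]
    rw [prod_union hdisj]
  have hV00 : 0 ≤ V P0 := (V_pos fun p hp => (hPp0 p hp).1).le
  have key := hFL b J z0 P1 (fun p => 1 / (p : ℝ)) hbC (by omega) hPp1 (fun p hp => by
      have hp0 : (0 : ℝ) < p := by exact_mod_cast (hPp1 p hp).1.pos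
      have hp1 : (1 : ℝ) < p := by exact_mod_cast (hPp1 p hp).1.one_lt
      refine ⟨by positivity, ?_⟩
      push_cast
      apply one_div_le_one_div_of_le (by linarith) (by linarith))
    ((Icc 1 X).filter (fun n => ∀ p ∈ P0, n % p ≠ ρ p)) (fun _ => (1 : ℝ)) (fun p n => n % p = ρ p) (X * V P0) (fun _ => (K0 : ℝ))
    (fun _ _ => zero_le_one) (by positivity) (by
      intro T hT hTD
      have hTp : ∀ p ∈ T, p.Prime := fun p hp => (hPp1 p (hT hp)).1
      have hdT : Disjoint P0 T := disjoint_of_subset_right hT hdisj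
      have h3 := Pool.Agent.H373R2.T7.count_sys (fun p a => if p ≤ z0 then ¬ a = ρ p else a = ρ p) X (P0 ∪ T) (fun p hp => by
        rcases mem_union.1 hp with h | h
        · exact (hPp0 p h).1
        · exact hTp p h) 1 le_rfl (fun p hp hd => by
          have hpp : p.Prime := by
            rcases mem_union.1 hp with h | h
            · exact (hPp0 p h).1
            · exact hTp p h
          exact hpp.one_lt.ne' (Nat.dvd_one.1 hd)) 0
      have hTz : ∀ p ∈ T, ¬ p ≤ z0 := fun p hp => by have := (hPp1 p (hT hp)).2.1; omega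
      have hρ1 : ∀ p ∈ P, ((range p).filter (fun a => a = ρ p)).card = 1 := by
        intro p hp
        rw [card_eq_one]
        refine ⟨ρ p, ?_⟩
        ext a
        simp only [mem_filter, mem_range, mem_singleton]
        constructor
        · exact fun h => h.2
        · rintro rfl; exact ⟨hρ p hp, rfl⟩
      have c1 : ∀ p ∈ P0, (((range p).filter (fun a => if p ≤ z0 then ¬ a = ρ p else a = ρ p)).card : ℝ) = p - 1 := by
        intro p hp
        simp only [if_pos (hPp0 p hp).2]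
        have h4 := card_filter_add_card_filter_not (s := range p) (fun a => a = ρ p)
        rw [card_range, hρ1 p (mem_filter.1 hp).1] at h4
        have h7 : (1 : ℝ) + (((range p).filter (fun a => ¬ a = ρ p)).card : ℝ) = p := by exact_mod_cast h4
        linarith
      have c2 : ∀ p ∈ T, (((range p).filter (fun a => if p ≤ z0 then ¬ a = ρ p else a = ρ p)).card : ℝ) = 1 := by
        intro p hp
        simp only [if_neg (hTz p hp)]
        exact_mod_cast hρ1 p (mem_filter.1 (hT hp)).1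
      rw [prod_union hdT, prod_union hdT] at h3
      have e1 : ∏ p ∈ P0, ((((range p).filter (fun a => if p ≤ z0 then ¬ a = ρ p else a = ρ p)).card : ℝ) / p) = V P0 := by
        unfold V
        apply prod_congr rfl
        intro p hp
        rw [c1 p hp]
        have hp0 : (p : ℝ) ≠ 0 := by exact_mod_cast (hPp0 p hp).1.ne_zero
        field_simp
      have e2 : ∏ p ∈ T, ((((range p).filter (fun a => if p ≤ z0 then ¬ a = ρ p else a = ρ p)).card : ℝ) / p) = ∏ p ∈ T, (1 / (p : ℝ)) := by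
        apply prod_congr rfl
        intro p hp
        rw [c2 p hp]
      have e3 : ∏ p ∈ P0, (((range p).filter (fun a => if p ≤ z0 then ¬ a = ρ p else a = ρ p)).card : ℝ) ≤ K0 := by
        rw [hK0]
        push_cast
        have h5 : ∏ p ∈ P0, (((range p).filter (fun a => if p ≤ z0 then ¬ a = ρ p else a = ρ p)).card : ℝ) ≤ ∏ p ∈ P0, (p : ℝ) := by
          apply prod_le_prod (fun _ _ => Nat.cast_nonneg _)
          intro p hp
          rw [c1 p hp]
          linarith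
        refine h5.trans ?_
        apply prod_le_prod_of_subset_of_one_le
        · intro p hp
          rw [mem_filter, mem_Icc]
          exact ⟨⟨(hPp0 p hp).1.one_lt.le, (hPp0 p hp).2⟩, (hPp0 p hp).1⟩
        · intro p _; exact Nat.cast_nonneg _
        · intro p hp _
          exact_mod_cast (mem_filter.1 hp).2.one_lt.le
      have e4 : ∏ p ∈ T, (((range p).filter (fun a => if p ≤ z0 then ¬ a = ρ p else a = ρ p)).card : ℝ) = 1 :=
        prod_eq_one c2
      rw [e1, e2, e4, Nat.cast_one, div_one, mul_one] at h3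
      have e5 : ∑ m ∈ ((Icc 1 X).filter (fun n => ∀ p ∈ P0, n % p ≠ ρ p)).filter (fun m => ∀ p ∈ T, m % p = ρ p), (1 : ℝ) =
          (((Icc 1 X).filter (fun n => n ≡ 0 [MOD 1] ∧ ∀ p ∈ P0 ∪ T, if p ≤ z0 then ¬ n % p = ρ p else n % p = ρ p)).card : ℝ) := by
        rw [sum_const, nsmul_eq_mul, mul_one, filter_filter]
        congr 2
        apply filter_congr
        intro n _
        constructor
        · rintro ⟨h5, h6⟩
          refine ⟨Nat.modEq_one, fun p hp => ?_⟩
          rcases mem_union.1 hp with h | h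
          · rw [if_pos (hPp0 p h).2]
            exact h5 p h
          · rw [if_neg (hTz p h)]
            exact h6 p h
        · rintro ⟨_, h5⟩
          constructor
          · intro p hp
            have h8 := h5 p (mem_union_left _ hp)
            rwa [if_pos (hPp0 p hp).2] at h8
          · intro p hp
            have h8 := h5 p (mem_union_right _ hp)
            rwa [if_neg (hTz p hp)] at h8
      have h6 := h3.trans e3
      rw [← e5] at h6
      rw [mul_assoc]
      refine le_trans (le_of_eq ?_) h6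
      congr 2
      apply sum_congr _ (fun _ _ => rfl)
      ext m
      simp only [mem_filter])
  have f1 : ∑ m ∈ ((Icc 1 X).filter (fun n => ∀ p ∈ P0, n % p ≠ ρ p)).filter (fun m => ∀ p ∈ P1, ¬ m % p = ρ p), (1 : ℝ) =
      ((((Icc 1 X).filter (fun n : ℕ => ∀ p ∈ P, n % p ≠ ρ p)).card : ℕ) : ℝ) := by
    rw [sum_const, nsmul_eq_mul, mul_one, filter_filter]
    congr 2
    apply filter_congr
    intro n _
    conv_rhs => rw [hPu]
    constructor
    · rintro ⟨h5, h6⟩ p hp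
      rcases mem_union.1 hp with h | h
      · exact h5 p h
      · exact h6 p h
    · intro h
      exact ⟨fun p hp => h p (mem_union_left _ hp), fun p hp => h p (mem_union_right _ hp)⟩
  have f2 : (X : ℝ) * V P0 * ∏ p ∈ P1, (1 - 1 / (p : ℝ)) = X * V P := by
    rw [hV, mul_assoc]; rfl
  rw [f2] at key
  have key2 : |((((Icc 1 X).filter (fun n : ℕ => ∀ p ∈ P, n % p ≠ ρ p)).card : ℕ) : ℝ) - X * V P| ≤
      (1 / 2 : ℝ) ^ b * (X * V P) + ((J : ℝ) + 2) *
        ∑ T ∈ P1.powerset.filter (fun T : Finset ℕ => ∏ p ∈ T, p ≤ (2 ^ 2 ^ J) ^ (C0 * b)), (K0 : ℝ) := by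
    rw [← f1]
    refine le_trans (le_of_eq ?_) key
    congr 2
    apply sum_congr _ (fun _ _ => rfl)
    ext m
    simp only [mem_filter]
  refine key2.trans ?_
  have hVP := V_pos hPp
  have hM0 : 0 ≤ (X : ℝ) * V P := mul_nonneg (Nat.cast_nonneg _) hVP.le
  have hcard : (P1.powerset.filter (fun T : Finset ℕ => ∏ p ∈ T, p ≤ D)).card ≤ D := by
    calc _ ≤ (Icc 1 D).card := by
          apply card_le_card_of_injOn (fun T : Finset ℕ => ∏ p ∈ T, p)
          · intro T hT
            rw [mem_coe, mem_filter, mem_powerset] at hT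
            have h5 : 1 ≤ ∏ p ∈ T, p := Nat.pos_of_ne_zero (prod_ne_zero_iff.2 fun p hp => (hPp1 p (hT.1 hp)).1.ne_zero)
            exact mem_coe.2 (mem_Icc.2 ⟨h5, hT.2⟩)
          · intro S hS S' hS' h
            rw [mem_coe, mem_filter, mem_powerset] at hS hS'
            have hSp : ∀ p ∈ S, p.Prime := fun p hp => (hPp1 p (hS.1 hp)).1
            have hSp' : ∀ p ∈ S', p.Prime := fun p hp => (hPp1 p (hS'.1 hp)).1
            simp only at h
            ext p
            constructor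
            · intro hp
              have h1 : p ∣ ∏ p ∈ S', p := h ▸ dvd_prod_of_mem _ hp
              obtain ⟨p', hp', hd⟩ := (Nat.Prime.prime (hSp p hp)).exists_mem_finset_dvd h1
              rw [Nat.prime_dvd_prime_iff_eq (hSp p hp) (hSp' p' hp')] at hd
              exact hd ▸ hp'
            · intro hp
              have h1 : p ∣ ∏ p ∈ S, p := h ▸ dvd_prod_of_mem _ hp
              obtain ⟨p', hp', hd⟩ := (Nat.Prime.prime (hSp' p hp)).exists_mem_finset_dvd h1
              rw [Nat.prime_dvd_prime_iff_eq (hSp' p hp) (hSp p' hp')] at hd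
              exact hd ▸ hp'
      _ = D := by simp
  -- the error
  have hmain : ((J : ℝ) + 2) * ∑ T ∈ P1.powerset.filter (fun T : Finset ℕ => ∏ p ∈ T, p ≤ (2 ^ 2 ^ J) ^ (C0 * b)), (K0 : ℝ) ≤
      ε / 2 * (X * V P) := by
    rw [sum_const, nsmul_eq_mul]
    have hVy := V_ge hPp (show 1 ≤ y by omega) (fun p hp => (hP p hp).2)
    have hy0 : (0 : ℝ) < y := by exact_mod_cast (by omega : 0 < y)
    have g1 : ((J : ℝ) + 2) ≤ 2 * y := by exact_mod_cast JJ_small y (by omega)
    have g2 : (((P1.powerset.filter (fun T : Finset ℕ => ∏ p ∈ T, p ≤ (2 ^ 2 ^ J) ^ (C0 * b))).card : ℕ) : ℝ) ≤ (y : ℝ) ^ (2 * (C0 * b)) := by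
      have : (P1.powerset.filter (fun T : Finset ℕ => ∏ p ∈ T, p ≤ (2 ^ 2 ^ J) ^ (C0 * b))).card ≤ y ^ (2 * (C0 * b)) := by
        calc _ ≤ D := hcard
          _ ≤ (y ^ 2) ^ (C0 * b) := Nat.pow_le_pow_left hYy _
          _ = y ^ (2 * (C0 * b)) := by rw [← pow_mul]
      exact_mod_cast this
    have g3 : (K0 : ℝ) ≤ y := by exact_mod_cast (by omega : K0 ≤ y)
    have g4 : 2 / ε ≤ y := by
      have : (e0 : ℝ) ≤ y := by exact_mod_cast (by omega : e0 ≤ y)
      linarith
    have g4' : 1 ≤ ε / 2 * y := by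
      rw [div_le_iff₀ hε] at g4
      linarith
    have g5 : (y : ℝ) ^ (4 * (C0 * b) + 5) ≤ X := by exact_mod_cast hX
    have hy1 : (1 : ℝ) ≤ y := by exact_mod_cast (by omega : 1 ≤ y)
    calc ((J : ℝ) + 2) * ((((P1.powerset.filter (fun T : Finset ℕ => ∏ p ∈ T, p ≤ (2 ^ 2 ^ J) ^ (C0 * b))).card : ℕ) : ℝ) * K0)
        ≤ (2 * y) * ((y : ℝ) ^ (2 * (C0 * b)) * y) := by
          apply mul_le_mul g1 _ (mul_nonneg (Nat.cast_nonneg _) (Nat.cast_nonneg _)) (mul_nonneg (by norm_num) hy0.le)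
          exact mul_le_mul g2 g3 (Nat.cast_nonneg _) (pow_nonneg hy0.le _)
      _ ≤ (y * y) * ((y : ℝ) ^ (2 * (C0 * b)) * y) := by
          apply mul_le_mul_of_nonneg_right _ (by positivity)
          apply mul_le_mul_of_nonneg_right _ hy0.le
          exact_mod_cast (by omega : 2 ≤ y)
      _ ≤ ε / 2 * y * ((y * y) * ((y : ℝ) ^ (2 * (C0 * b)) * y)) := by
          nlinarith [show 0 ≤ (y * y : ℝ) * ((y : ℝ) ^ (2 * (C0 * b)) * y) by positivity]
      _ = ε / 2 * ((y : ℝ) ^ (2 * (C0 * b) + 5) * (1 / y)) := by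
          rw [pow_add]; field_simp
      _ ≤ ε / 2 * (X * V P) := by
          apply mul_le_mul_of_nonneg_left _ (by positivity)
          apply mul_le_mul _ hVy (by positivity) (by positivity)
          refine le_trans ?_ g5
          exact pow_le_pow_right₀ hy1 (by omega)
  calc _ ≤ ε / 2 * (X * V P) + ε / 2 * (X * V P) := add_le_add (mul_le_mul_of_nonneg_right hbε hM0) hmain
    _ = ε * (X * V P) := by ring

end Pool.Agent.W41
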